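import Pool.Agent.Helper27.OT.Defs

/-!
# MP_2857a5_co, module GR : greedy embedding with double steps
-/

set_option autoImplicit false

open Finset
open scoped Classical

namespace OT

noncomputable section

namespace GR

variable {n : ℕ} {V : Type} [Fintype V]

/-- The invariant of the greedy embedding. -/
structure Inv (D : V → V → Prop) (T : PTree n) (Bs NB : Finset (Fin n)) (Q : Finset V)
    (φ₀ : Fin n → V) (E : Finset (Fin n)) (φ : Fin n → V) : Prop where
  sub : E ⊆ NB
  closed : ∀ v ∈ E, (v : ℕ) ≠ 0 → T.par v ∈ NB → T.par v ∈ E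
  pair : ∀ z ∈ Bs, T.par z ∈ NB → (T.par z ∈ E ↔ T.par (T.par z) ∈ E)
  eq : ∀ v ∈ Bs, φ v = φ₀ v
  mem : ∀ v ∈ E, φ v ∈ Q
  inj : Set.InjOn φ (E : Set (Fin n))
  arc : ∀ v : Fin n, (v : ℕ) ≠ 0 → v ∈ Bs ∪ E → T.par v ∈ Bs ∪ E → (v ∈ E ∨ T.par v ∈ E) →
    Adj D (T.sg v) (φ (T.par v)) (φ v)

theorem step (D : V → V → Prop) (T : PTree n)
    {U : Finset (Fin n)} {K : ℕ} (hG : T.Good U K) (Bs NB : Finset (Fin n)) (hU : U ⊆ NB)
    (hd : Disjoint Bs NB) (h1 : ∀ v ∈ NB, (v : ℕ) ≠ 0 → T.par v ∈ NB ∪ Bs)
    (h2 : ∀ v ∈ Bs, T.par v ∈ NB → T.par v ∈ U) (Q : Finset V) (φ₀ : Fin n → V)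
    (hs : ∀ Us ⊆ Q, Us.card < NB.card → ∀ (u : V) (b : Bool), ∃ x ∈ Q \ Us, Adj D b u x)
    (hc : ∀ Us ⊆ Q, Us.card < NB.card → ∀ (u v : V) (b1 b2 b3 : Bool),
      ∃ x ∈ Q \ Us, ∃ y ∈ Q \ Us, x ≠ y ∧ Adj D b1 u x ∧ Adj D b2 x y ∧ Adj D b3 y v)
    (E : Finset (Fin n)) (φ : Fin n → V) (hI : Inv D T Bs NB Q φ₀ E φ) (hE : E ≠ NB) :
    ∃ (E' : Finset (Fin n)) (φ' : Fin n → V), Inv D T Bs NB Q φ₀ E' φ' ∧ E.card < E'.card := by
  have hne : (NB \ E).Nonempty := by
    rw [Finset.sdiff_nonempty]
    intro hsub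
    exact hE (Finset.Subset.antisymm hI.sub hsub)
  obtain ⟨v, hv, hmin⟩ := Finset.exists_min_image (NB \ E) (fun v => (v : ℕ)) hne
  rw [Finset.mem_sdiff] at hv
  obtain ⟨hvNB, hvE⟩ := hv
  have hvBs : v ∉ Bs := fun h => (Finset.disjoint_left.1 hd) h hvNB
  -- smaller vertices of `NB` are in `E`
  have hlow : ∀ w ∈ NB, w < v → w ∈ E := by
    intro w hw hlt
    by_contra hwE
    have := hmin w (Finset.mem_sdiff.2 ⟨hw, hwE⟩)
    exact absurd hlt (not_lt.2 (by exact_mod_cast this))
  -- tops
  have htop : ∀ z ∈ Bs, T.par z ∈ NB → T.Top U z := by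
    intro z hz hp
    refine ⟨fun hzU => (Finset.disjoint_left.1 hd) hz (hU hzU), h2 z hz hp⟩
  -- the used vertices
  set Us : Finset V := E.image φ with hUs
  have hUsQ : Us ⊆ Q := by
    intro x hx
    obtain ⟨w, hw, rfl⟩ := Finset.mem_image.1 hx
    exact hI.mem w hw
  have hEcard : E.card < NB.card := by
    apply Finset.card_lt_card
    rw [Finset.ssubset_iff_of_subset hI.sub]
    exact ⟨v, hvNB, hvE⟩
  have hUscard : Us.card < NB.card := lt_of_le_of_lt Finset.card_image_le hEcard
  have hUsmem : ∀ w ∈ E, φ w ∈ Us := fun w hw => Finset.mem_image_of_mem φ hw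
  by_cases hz : ∃ z ∈ Bs, T.par z ∈ NB ∧ T.par (T.par z) = v
  · obtain ⟨z, hzBs, hzNB, hzv⟩ := hz
    have hzTop := htop z hzBs hzNB
    set y := T.par z with hy
    have hyE : y ∉ E := by
      intro h
      have := (hI.pair z hzBs hzNB).1 h
      rw [← hy, hzv] at this
      exact hvE this
    have hyBs : y ∉ Bs := fun h => (Finset.disjoint_left.1 hd) h hzNB
    have hy0 : (y : ℕ) ≠ 0 := hG.par_ne z hzTop
    have hvy : v < y := by rw [← hzv]; exact T.lt y hy0
    obtain ⟨x', hx', y', hy', hxy, ha1, ha2, ha3⟩ :=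
      hc Us hUsQ hUscard (φ (T.par v)) (φ₀ z) (T.sg v) (T.sg y) (T.sg z)
    rw [Finset.mem_sdiff] at hx' hy'
    set φ' : Fin n → V := Function.update (Function.update φ v x') y y' with hφ'
    have hφ'y : φ' y = y' := by simp [hφ']
    have hφ'v : φ' v = x' := by
      rw [hφ', Function.update_of_ne (ne_of_lt hvy), Function.update_self]
    have hφ'o : ∀ w, w ≠ v → w ≠ y → φ' w = φ w := by
      intro w h1 h2
      rw [hφ', Function.update_of_ne h2, Function.update_of_ne h1]
    have hEne : ∀ w ∈ E, w ≠ v ∧ w ≠ y := fun w hw =>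
      ⟨fun h => hvE (h ▸ hw), fun h => hyE (h ▸ hw)⟩
    have hBne : ∀ w ∈ Bs, w ≠ v ∧ w ≠ y := fun w hw =>
      ⟨fun h => hvBs (h ▸ hw), fun h => hyBs (h ▸ hw)⟩
    refine ⟨insert y (insert v E), φ', ?_, ?_⟩
    · constructor
      · intro w hw
        rw [Finset.mem_insert, Finset.mem_insert] at hw
        rcases hw with rfl | rfl | hw
        · exact hzNB
        · exact hvNB
        · exact hI.sub hw
      · intro w hw hw0 hwp
        rw [Finset.mem_insert, Finset.mem_insert] at hw ⊢
        rcases hw with rfl | rfl | hw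
        · right; left; exact hzv
        · right; right
          exact hlow _ hwp (T.lt _ hw0)
        · right; right
          exact hI.closed w hw hw0 hwp
      · intro z' hz' hz'p
        by_cases hzz : z' = z
        · subst hzz
          rw [← hy, hzv]
          simp
        · have hT' := htop z' hz' hz'p
          have e1 : T.par z' ≠ y := fun h => hzz (hG.disj1 z' z hT' hzTop h)
          have e2 : T.par z' ≠ v := by
            rw [← hzv]; exact hG.disj3 z' z hT' hzTop
          have e3 : T.par (T.par z') ≠ y := fun h => hG.disj3 z z' hzTop hT' h.symm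
          have e4 : T.par (T.par z') ≠ v := by
            rw [← hzv]; exact fun h => hzz (hG.disj2 z' z hT' hzTop h)
          rw [Finset.mem_insert, Finset.mem_insert, Finset.mem_insert, Finset.mem_insert]
          simp only [e1, e2, e3, e4, false_or]
          exact hI.pair z' hz' hz'p
      · intro w hw
        rw [hφ'o w (hBne w hw).1 (hBne w hw).2]
        exact hI.eq w hw
      · intro w hw
        rw [Finset.mem_insert, Finset.mem_insert] at hw
        rcases hw with rfl | rfl | hw
        · rw [hφ'y]; exact hy'.1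
        · rw [hφ'v]; exact hx'.1
        · rw [hφ'o w (hEne w hw).1 (hEne w hw).2]; exact hI.mem w hw
      · intro a ha b hb hab
        rw [Finset.mem_coe, Finset.mem_insert, Finset.mem_insert] at ha hb
        rcases ha with rfl | rfl | ha <;> rcases hb with rfl | rfl | hb
        · rfl
        · rw [hφ'y, hφ'v] at hab; exact absurd hab.symm hxy
        · rw [hφ'y, hφ'o b (hEne b hb).1 (hEne b hb).2] at hab
          exact absurd (hab ▸ hUsmem b hb) hy'.2
        · rw [hφ'y, hφ'v] at hab; exact absurd hab hxy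
        · rfl
        · rw [hφ'v, hφ'o b (hEne b hb).1 (hEne b hb).2] at hab
          exact absurd (hab ▸ hUsmem b hb) hx'.2
        · rw [hφ'y, hφ'o a (hEne a ha).1 (hEne a ha).2] at hab
          exact absurd (hab ▸ hUsmem a ha) hy'.2
        · rw [hφ'v, hφ'o a (hEne a ha).1 (hEne a ha).2] at hab
          exact absurd (hab ▸ hUsmem a ha) hx'.2
        · rw [hφ'o a (hEne a ha).1 (hEne a ha).2, hφ'o b (hEne b hb).1 (hEne b hb).2] at hab
          exact hI.inj ha hb hab
      · intro w hw0 hw hpw hor
        -- the new arcs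
        by_cases hwv : w = v
        · subst hwv
          have hp1 : T.par w ≠ w := ne_of_lt (T.lt w hw0)
          have hp2 : T.par w ≠ y := ne_of_lt (lt_trans (T.lt w hw0) hvy)
          rw [hφ'v, hφ'o _ hp1 hp2]
          exact ha1
        by_cases hwy : w = y
        · rw [hwy, hzv, hφ'v, hφ'y]
          exact ha2
        by_cases hpv : T.par w = v
        · exfalso
          rw [Finset.mem_union, Finset.mem_insert, Finset.mem_insert] at hw
          rcases hw with hw | rfl | rfl | hw
          · have hT' := htop w hw (by rw [hpv]; exact hvNB)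
            exact hG.disj3 w z hT' hzTop (by rw [hpv]; exact hzv.symm)
          · exact hwy rfl
          · exact hwv rfl
          · have := hI.closed w hw hw0 (by rw [hpv]; exact hvNB)
            rw [hpv] at this
            exact hvE this
        by_cases hpy : T.par w = y
        · rw [Finset.mem_union, Finset.mem_insert, Finset.mem_insert] at hw
          rcases hw with hw | hw | hw | hw
          · have hT' := htop w hw (by rw [hpy]; exact hzNB)
            have : w = z := hG.disj1 w z hT' hzTop hpy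
            subst this
            rw [hpy, hφ'y, hφ'o w hwv hwy, hI.eq w hw]
            exact ha3
          · exact absurd hw hwy
          · exact absurd hw hwv
          · have := hI.closed w hw hw0 (by rw [hpy]; exact hzNB)
            rw [hpy] at this
            exact absurd this hyE
        rw [hφ'o w hwv hwy, hφ'o _ hpv hpy]
        apply hI.arc w hw0
        · rw [Finset.mem_union, Finset.mem_insert, Finset.mem_insert] at hw
          rw [Finset.mem_union]
          tauto
        · rw [Finset.mem_union, Finset.mem_insert, Finset.mem_insert] at hpw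
          rw [Finset.mem_union]
          tauto
        · rw [Finset.mem_insert, Finset.mem_insert, Finset.mem_insert, Finset.mem_insert] at hor
          tauto
    · apply Finset.card_lt_card
      rw [Finset.ssubset_iff_of_subset]
      · exact ⟨v, by simp, hvE⟩
      · intro w hw
        simp [hw]
  · -- single step
    obtain ⟨x', hx', ha1⟩ := hs Us hUsQ hUscard (φ (T.par v)) (T.sg v)
    rw [Finset.mem_sdiff] at hx'
    set φ' : Fin n → V := Function.update φ v x' with hφ'
    have hφ'v : φ' v = x' := by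
      rw [hφ', Function.update_self]
    have hφ'o : ∀ w, w ≠ v → φ' w = φ w := by
      intro w h1
      rw [hφ', Function.update_of_ne h1]
    have hEne : ∀ w ∈ E, w ≠ v := fun w hw h => hvE (h ▸ hw)
    have hBne : ∀ w ∈ Bs, w ≠ v := fun w hw h => hvBs (h ▸ hw)
    -- no child of `v` is in `Bs`
    have hch : ∀ w ∈ Bs, T.par w ∈ NB → T.par w ≠ v := by
      intro w hw hwNB hwv
      have hT' := htop w hw hwNB
      have hv0 : (v : ℕ) ≠ 0 := by
        have := hG.par_ne w hT'
        rwa [hwv] at this
      have hp2 : T.par v ∈ U := by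
        have := hG.par2 w hT'
        rwa [hwv] at this
      have hpE : T.par v ∈ E := hlow _ (hU hp2) (T.lt v hv0)
      have := (hI.pair w hw hwNB).2 (by rw [hwv]; exact hpE)
      rw [hwv] at this
      exact hvE this
    refine ⟨insert v E, φ', ?_, ?_⟩
    · constructor
      · intro w hw
        rw [Finset.mem_insert] at hw
        rcases hw with rfl | hw
        · exact hvNB
        · exact hI.sub hw
      · intro w hw hw0 hwp
        rw [Finset.mem_insert] at hw ⊢
        rcases hw with rfl | hw
        · right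
          exact hlow _ hwp (T.lt _ hw0)
        · right
          exact hI.closed w hw hw0 hwp
      · intro z' hz' hz'p
        have e2 : T.par z' ≠ v := hch z' hz' hz'p
        have e4 : T.par (T.par z') ≠ v := fun h => hz ⟨z', hz', hz'p, h⟩
        rw [Finset.mem_insert, Finset.mem_insert]
        simp only [e2, e4, false_or]
        exact hI.pair z' hz' hz'p
      · intro w hw
        rw [hφ'o w (hBne w hw)]
        exact hI.eq w hw
      · intro w hw
        rw [Finset.mem_insert] at hw
        rcases hw with rfl | hw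
        · rw [hφ'v]; exact hx'.1
        · rw [hφ'o w (hEne w hw)]; exact hI.mem w hw
      · intro a ha b hb hab
        rw [Finset.mem_coe, Finset.mem_insert] at ha hb
        rcases ha with rfl | ha <;> rcases hb with rfl | hb
        · rfl
        · rw [hφ'v, hφ'o b (hEne b hb)] at hab
          exact absurd (hab ▸ hUsmem b hb) hx'.2
        · rw [hφ'v, hφ'o a (hEne a ha)] at hab
          exact absurd (hab ▸ hUsmem a ha) hx'.2
        · rw [hφ'o a (hEne a ha), hφ'o b (hEne b hb)] at hab
          exact hI.inj ha hb hab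
      · intro w hw0 hw hpw hor
        by_cases hwv : w = v
        · subst hwv
          have hp1 : T.par w ≠ w := ne_of_lt (T.lt w hw0)
          rw [hφ'v, hφ'o _ hp1]
          exact ha1
        by_cases hpv : T.par w = v
        · exfalso
          rw [Finset.mem_union, Finset.mem_insert] at hw
          rcases hw with hw | rfl | hw
          · exact hch w hw (by rw [hpv]; exact hvNB) hpv
          · exact hwv rfl
          · have := hI.closed w hw hw0 (by rw [hpv]; exact hvNB)
            rw [hpv] at this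
            exact hvE this
        rw [hφ'o w hwv, hφ'o _ hpv]
        apply hI.arc w hw0
        · rw [Finset.mem_union, Finset.mem_insert] at hw
          rw [Finset.mem_union]
          tauto
        · rw [Finset.mem_union, Finset.mem_insert] at hpw
          rw [Finset.mem_union]
          tauto
        · rw [Finset.mem_insert, Finset.mem_insert] at hor
          tauto
    · apply Finset.card_lt_card
      rw [Finset.ssubset_iff_of_subset]
      · exact ⟨v, by simp, hvE⟩
      · intro w hw
        simp [hw]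

end GR

/-! ## Module GR (greedy embedding) -/

theorem greedy {n : ℕ} {V : Type} [Fintype V] [Nonempty V] (D : V → V → Prop) (T : PTree n)
    {U : Finset (Fin n)} {K : ℕ} (hG : T.Good U K) (Bs NB : Finset (Fin n)) (hU : U ⊆ NB)
    (hd : Disjoint Bs NB) (h1 : ∀ v ∈ NB, (v : ℕ) ≠ 0 → T.par v ∈ NB ∪ Bs)
    (h2 : ∀ v ∈ Bs, T.par v ∈ NB → T.par v ∈ U) (Q : Finset V) (φ₀ : Fin n → V)
    (hφ : Set.InjOn φ₀ (Bs : Set (Fin n))) (hQ : ∀ v ∈ Bs, φ₀ v ∉ Q)
    (hs : ∀ Us ⊆ Q, Us.card < NB.card → ∀ (u : V) (b : Bool), ∃ x ∈ Q \ Us, Adj D b u x)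
    (hc : ∀ Us ⊆ Q, Us.card < NB.card → ∀ (u v : V) (b1 b2 b3 : Bool),
      ∃ x ∈ Q \ Us, ∃ y ∈ Q \ Us, x ≠ y ∧ Adj D b1 u x ∧ Adj D b2 x y ∧ Adj D b3 y v) :
    ∃ φ : Fin n → V, (∀ v ∈ Bs, φ v = φ₀ v) ∧ (∀ v ∈ NB, φ v ∈ Q) ∧
      Set.InjOn φ (NB : Set (Fin n)) ∧
      ∀ v : Fin n, (v : ℕ) ≠ 0 → v ∈ Bs ∪ NB → T.par v ∈ Bs ∪ NB → (v ∈ NB ∨ T.par v ∈ NB) →
        Adj D (T.sg v) (φ (T.par v)) (φ v) := by
  have key : ∀ k : ℕ, ∀ (E : Finset (Fin n)) (φ : Fin n → V), GR.Inv D T Bs NB Q φ₀ E φ →
      NB.card - E.card ≤ k → ∃ φ' : Fin n → V, GR.Inv D T Bs NB Q φ₀ NB φ' := by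
    intro k
    induction k with
    | zero =>
      intro E φ hI hk
      have : E = NB := Finset.eq_of_subset_of_card_le hI.sub (by omega)
      exact ⟨φ, this ▸ hI⟩
    | succ k ih =>
      intro E φ hI hk
      by_cases hE : E = NB
      · exact ⟨φ, hE ▸ hI⟩
      · obtain ⟨E', φ', hI', hlt⟩ := GR.step D T hG Bs NB hU hd h1 h2 Q φ₀ hs hc E φ hI hE
        exact ih E' φ' hI' (by omega)
  obtain ⟨φ, hI⟩ := key (NB.card - (∅ : Finset (Fin n)).card) ∅ φ₀
    ⟨by simp, by simp, by simp, fun _ _ => rfl, by simp, by simp, by simp⟩ le_rfl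
  exact ⟨φ, hI.eq, hI.mem, hI.inj, hI.arc⟩

end

end OT
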